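import Pool.Agent.L7h22.GF.LowC

set_option autoImplicit false
set_option linter.deprecated false

/-!
# Project GF: the lower bound for small times
-/

open MeasureTheory Set Filter Topology Real
open scoped ENNReal

namespace Pool.Agent.L7h22.GF

open Pool.Agent.L7h99.LS Pool.Agent.L7h99.SC Pool.Agent.L7h99.GF
open Pool.Agent.L7h32.SC (ev_iff hv_eq hv_conv int_G_mul hv_unif hv_contDiff pd_hv G_loc dn_C1
  dn_supp dn_nn dn_pos scale pw_ineq)
open Pool.Agent.L7h76.LS (G_int G_one mom mom_int shift_supp dir_cont dir_supp sq_supp t_LOW)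

variable {d n : ℕ}

/-- The kinetic energy of a family times a multiplier close to one. -/
theorem kin_mul {f : Fin n → (Fin d → ℝ) → ℝ} (hf : ∀ i, ContDiff ℝ 1 (f i))
    (hs : ∀ i, HasCompactSupport (f i)) {m : (Fin d → ℝ) → ℝ} (hmC : ContDiff ℝ 1 m) {η : ℝ}
    (hη0 : 0 ≤ η) (hη1 : η ≤ 1) (h1 : ∀ x, |m x - 1| ≤ η ∧ ∀ k, |LTd.pd k m x| ≤ η) :
    ∑ i, ∫ x, ∑ k, LTd.pd k (fun x => m x * f i x) x ^ 2 ≤
      kin f + η * (5 * kin f + 3 * d * ∫ x, den f x) := by
  have ipd : ∀ i, Integrable fun x => ∑ k, LTd.pd k (f i) x ^ 2 := by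
    intro i
    apply integrable_finsetSum
    intro k _
    exact ((dir_cont (hf i) _).pow 2).integrable_of_hasCompactSupport
      (sq_supp (dir_supp (hs i) _))
  have hkin : kin f = ∑ i, ∫ x, ∑ k, LTd.pd k (f i) x ^ 2 := by
    rw [kin, ← integral_finsetSum _ fun i _ => ipd i]
    congr 1
    funext x
    exact Finset.sum_comm
  set g : Fin n → (Fin d → ℝ) → ℝ := fun i x => m x * f i x with hg
  have hgC : ∀ i, ContDiff ℝ 1 (g i) := fun i => hmC.mul (hf i)
  have hgs : ∀ i, HasCompactSupport (g i) := fun i => (hs i).mul_left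
  have h3 : ∀ i, ∫ x, ∑ k, LTd.pd k (g i) x ^ 2 ≤
      (1 + 5 * η) * (∫ x, ∑ k, LTd.pd k (f i) x ^ 2) + 3 * η * d * ∫ x, f i x ^ 2 := by
    intro i
    have isq : Integrable fun x => f i x ^ 2 :=
      ((hf i).continuous.pow 2).integrable_of_hasCompactSupport (sq_supp (hs i))
    rw [← integral_const_mul, ← integral_const_mul, ← integral_add ((ipd i).const_mul _)
      (isq.const_mul _)]
    refine integral_mono ?_ (((ipd i).const_mul _).add (isq.const_mul _)) ?_
    · apply integrable_finsetSum
      intro k _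
      exact ((dir_cont (hgC i) _).pow 2).integrable_of_hasCompactSupport
        (sq_supp (dir_supp (hgs i) _))
    · intro x
      beta_reduce
      have h4 : ∀ k, LTd.pd k (g i) x ^ 2 ≤
          (1 + 5 * η) * LTd.pd k (f i) x ^ 2 + 3 * η * f i x ^ 2 := by
        intro k
        have h5 : LTd.pd k (g i) x = m x * LTd.pd k (f i) x + f i x * LTd.pd k m x := by
          have h6 : HasFDerivAt m (fderiv ℝ m x) x :=
            (hmC.differentiable one_ne_zero x).hasFDerivAt
          have h7 : HasFDerivAt (f i) (fderiv ℝ (f i) x) x :=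
            ((hf i).differentiable one_ne_zero x).hasFDerivAt
          have h8 : fderiv ℝ (g i) x = m x • fderiv ℝ (f i) x + f i x • fderiv ℝ m x :=
            (h6.mul h7).fderiv
          unfold LTd.pd
          rw [h8]
          simp only [ContinuousLinearMap.add_apply, ContinuousLinearMap.smul_apply, smul_eq_mul]
        rw [h5]
        exact pw_ineq hη0 hη1 (h1 x).1 ((h1 x).2 k)
      refine (Finset.sum_le_sum fun k (_ : k ∈ Finset.univ) => h4 k).trans (le_of_eq ?_)
      rw [Finset.sum_add_distrib, ← Finset.mul_sum, Finset.sum_const, Finset.card_univ,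
        Fintype.card_fin, nsmul_eq_mul]
      ring
  refine (Finset.sum_le_sum fun i (_ : i ∈ Finset.univ) => h3 i).trans ?_
  rw [Finset.sum_add_distrib, ← Finset.mul_sum, ← Finset.mul_sum, ← hkin]
  have h4 : ∑ i, ∫ x, f i x ^ 2 = ∫ x, den f x := by
    rw [← integral_finsetSum]
    · rfl
    · intro i _
      exact ((hf i).continuous.pow 2).integrable_of_hasCompactSupport (sq_supp (hs i))
  rw [h4]
  exact le_of_eq (by ring)

section

variable {δ : ℝ} (hδ : 0 < δ) {f : Fin n → (Fin d → ℝ) → ℝ} (hf : ∀ i, ContDiff ℝ 1 (f i))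
  (hs : ∀ i, HasCompactSupport (f i))

include hδ hf

theorem bb_cont : Continuous (bb δ f) := by
  refine continuous_pi fun k => ?_
  exact (dir_cont (dn_C1 hf) _).div ((dn_C1 hf).continuous.add continuous_const)
    fun x => (dn_pos hδ f x).ne'

include hs

theorem bb_bdd : ∃ B : ℝ, 0 ≤ B ∧ ∀ x k, |bb δ f x k| ≤ B := by
  have h1 : ∀ k : Fin d, ∃ B : ℝ, ∀ x, ‖bb δ f x k‖ ≤ B := by
    intro k
    have hc : Continuous fun x => bb δ f x k := (continuous_apply k).comp (bb_cont hδ hf)
    refine hc.bounded_above_of_compact_support ?_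
    have h2 : (fun x => bb δ f x k) =
        (fun x => LTd.pd k (den f) x) * fun x => (den f x + δ)⁻¹ := by
      funext x
      rw [Pi.mul_apply, bb, div_eq_mul_inv]
    rw [h2]
    exact (dir_supp (dn_supp hs) _).mul_right
  choose B hB using h1
  refine ⟨∑ k, |B k|, Finset.sum_nonneg fun _ _ => abs_nonneg _, fun x k => ?_⟩
  rw [← Real.norm_eq_abs]
  refine (hB k x).trans ((le_abs_self _).trans ?_)
  exact Finset.single_le_sum (f := fun k => |B k|) (fun _ _ => abs_nonneg _) (Finset.mem_univ k)

omit hδ in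
theorem fis_int (hδ : 0 < δ) (k : Fin d) :
    Integrable fun x => LTd.pd k (den f) x ^ 2 / (den f x + δ) :=
  fis_integrable hf hs hδ k

/-- The limit of the correction is at least `fis / 16`. -/
theorem T_sum : 1 / 16 * fis δ f ≤
    ∑ i, (1 / 4 * (∑ k, ∫ x, (f i x * bb δ f x k) * LTd.pd k (f i) x) -
      1 / 16 * ∫ x, (f i x * dt (bb δ f x) (bb δ f x)) * f i x) := by
  have hb := bb_cont hδ hf
  have hbc : ∀ k, Continuous fun x => bb δ f x k := fun k => (continuous_apply k).comp hb
  have i1 : ∀ i k, Integrable fun x => (f i x * bb δ f x k) * LTd.pd k (f i) x := fun i k =>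
    (((hf i).continuous.mul (hbc k)).mul (dir_cont (hf i) _)).integrable_of_hasCompactSupport
      ((hs i).mul_right.mul_right)
  have i2 : ∀ i, Integrable fun x => (f i x * dt (bb δ f x) (bb δ f x)) * f i x := fun i =>
    (((hf i).continuous.mul (dt_cont hb hb)).mul (hf i).continuous).integrable_of_hasCompactSupport
      ((hs i).mul_right.mul_right)
  have e1 : ∑ i, ∑ k, ∫ x, (f i x * bb δ f x k) * LTd.pd k (f i) x = 1 / 2 * fis δ f := by
    rw [Finset.sum_comm]
    unfold fis
    rw [integral_finsetSum _ fun k _ => fis_int hf hs hδ k, Finset.mul_sum]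
    refine Finset.sum_congr rfl fun k _ => ?_
    rw [← integral_finsetSum _ fun i _ => i1 i k, ← integral_const_mul]
    congr 1
    funext x
    have h1 : ∑ i, (f i x * bb δ f x k) * LTd.pd k (f i) x =
        bb δ f x k * ∑ i, f i x * LTd.pd k (f i) x := by
      rw [Finset.mul_sum]
      refine Finset.sum_congr rfl fun i _ => ?_
      ring
    rw [h1]
    have h2 := pd_den hf x k
    have h3 : ∑ i, f i x * LTd.pd k (f i) x = 1 / 2 * LTd.pd k (den f) x := by linarith
    rw [h3, bb]
    ring
  have e2 : ∑ i, ∫ x, (f i x * dt (bb δ f x) (bb δ f x)) * f i x ≤ fis δ f := by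
    rw [← integral_finsetSum _ fun i _ => i2 i]
    unfold fis
    refine integral_mono (integrable_finsetSum _ fun i _ => i2 i)
      (integrable_finsetSum _ fun k _ => fis_int hf hs hδ k) fun x => ?_
    beta_reduce
    have h1 : ∑ i, (f i x * dt (bb δ f x) (bb δ f x)) * f i x =
        ∑ k, den f x * bb δ f x k ^ 2 := by
      unfold dt den
      rw [← Finset.mul_sum, Finset.sum_mul]
      refine Finset.sum_congr rfl fun i _ => ?_
      rw [show (∑ k, bb δ f x k * bb δ f x k) = ∑ k, bb δ f x k ^ 2 from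
        Finset.sum_congr rfl fun k _ => (sq _).symm]
      ring
    rw [h1]
    refine Finset.sum_le_sum fun k _ => ?_
    have hW := dn_pos hδ f x
    have h0 := dn_nn f x
    rw [bb, div_pow, mul_div_assoc', div_le_div_iff₀ (by positivity) hW]
    have h2 : 0 ≤ LTd.pd k (den f) x ^ 2 * (den f x + δ) := by positivity
    nlinarith
  rw [Finset.sum_sub_distrib, ← Finset.mul_sum, ← Finset.mul_sum, e1]
  linarith

end

theorem t_LOW3 : S_LOW3 := by
  intro d n f hf hs δ s ε hδ hs0 hε
  rw [← ev_iff (P := fun τ => (∫ x, den f x) + τ * (1 / 16 * fis δ f +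
      1 / s * (∫ x, den f x * Real.log (den f x + δ)) - kin f - ε) ≤
      ∑ i, ∫ x, ∫ y, f i x * ((den f x + δ) ^ (τ / (2 * s)) * (kf (1 / 2) τ (bb δ f) x y *
        (den f y + δ) ^ (τ / (2 * s))) * f i y))]
  have hden := dn_C1 hf
  have hdens := dn_supp hs
  have iden : Integrable (den f) := hden.continuous.integrable_of_hasCompactSupport hdens
  have hden0 : 0 ≤ ∫ x, den f x := integral_nonneg fun x => dn_nn f x
  have hkin0 : 0 ≤ kin f := kin_nonneg f
  have hb := bb_cont hδ hf
  obtain ⟨B, hB0, hB⟩ := bb_bdd hδ hf hs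
  set b := bb δ f with hbdef
  -- the exponent `q`
  set q : (Fin d → ℝ) → ℝ := fun x => Real.log (den f x + δ) / (2 * s) with hq
  have hlogC : ContDiff ℝ 1 fun x => Real.log (den f x + δ) :=
    (hden.add contDiff_const).log fun x => (dn_pos hδ f x).ne'
  have hqC : ContDiff ℝ 1 q := hlogC.div_const _
  obtain ⟨L, hL⟩ : ∃ L : ℝ, ∀ x, |q x| ≤ L := by
    obtain ⟨R, hR⟩ := hden.continuous.bounded_above_of_compact_support hdens
    refine ⟨(|Real.log δ| + |Real.log (R + δ)|) / (2 * s), fun x => ?_⟩
    rw [hq]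
    beta_reduce
    rw [abs_div, abs_of_pos (by positivity : 0 < 2 * s)]
    refine div_le_div_of_nonneg_right ?_ (by positivity)
    have h1 : den f x ≤ R := (le_abs_self _).trans (by rw [← Real.norm_eq_abs]; exact hR x)
    have h0 := dn_nn f x
    have h2 : Real.log δ ≤ Real.log (den f x + δ) := Real.log_le_log hδ (by linarith)
    have h3 : Real.log (den f x + δ) ≤ Real.log (R + δ) :=
      Real.log_le_log (by linarith) (by linarith)
    rw [abs_le]
    have := neg_abs_le (Real.log δ)
    have := le_abs_self (Real.log (R + δ))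
    have := abs_nonneg (Real.log δ)
    have := abs_nonneg (Real.log (R + δ))
    constructor <;> linarith
  have hL0 : 0 ≤ L := (abs_nonneg _).trans (hL 0)
  have hpow : ∀ (τ : ℝ) x, (den f x + δ) ^ (τ / (2 * s)) = Real.exp (τ * q x) := by
    intro τ x
    rw [Real.rpow_def_of_pos (dn_pos hδ f x), hq]
    congr 1
    ring
  -- the smallness of the multiplier
  set K := 5 * kin f + 3 * d * ∫ x, den f x with hK
  have hK0 : 0 ≤ K := by positivity
  set η := min 1 (ε / 2 / (K + 1)) with hη
  have hη0 : 0 < η := lt_min one_pos (by positivity)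
  have hη1 : η ≤ 1 := min_le_left _ _
  have hηK : η * K ≤ ε / 2 := by
    have h1 : η ≤ ε / 2 / (K + 1) := min_le_right _ _
    have h2 : η * (K + 1) ≤ ε / 2 := by
      rw [← le_div_iff₀ (by positivity)]
      exact h1
    nlinarith
  set c := L * Real.exp L + Real.exp L * B / (2 * s) + 1 with hc
  have hc0 : 0 < c := by positivity
  have hev1 : ∀ᶠ τ : ℝ in 𝓝[>] 0, 0 < τ ∧ τ ≤ 1 ∧ τ * c ≤ η := by
    filter_upwards [Ioo_mem_nhdsGT (show (0:ℝ) < min 1 (η / c) by positivity)] with τ hτ
    refine ⟨hτ.1, hτ.2.le.trans (min_le_left _ _), ?_⟩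
    rw [← le_div_iff₀ hc0]
    exact hτ.2.le.trans (min_le_right _ _)
  -- the limits
  have hlim : Tendsto (fun τ : ℝ => ∑ i, (τ⁻¹ * (∫ x, ∫ y, f i x * (G τ (x - y) * zt τ b x y *
      f i y)) + τ⁻¹ * (∫ x, ∫ y, f i x * (G τ (x - y) * Er q b τ x y * f i y)))) (𝓝[>] 0)
      (𝓝 (∑ i, ((1 / 4 * (∑ k, ∫ x, (f i x * b x k) * LTd.pd k (f i) x) -
        1 / 16 * ∫ x, (f i x * dt (b x) (b x)) * f i x) + 0))) :=
    tendsto_finsetSum _ fun i _ => (main_lim hb (hf i) (hs i)).add
      (err_lim (hf i).continuous (hs i) hb hB0 hB hqC.continuous hL)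
  simp only [add_zero] at hlim
  have hT := T_sum hδ hf hs
  rw [← hbdef] at hT
  have hev2 := hlim.eventually_const_lt (u := 1 / 16 * fis δ f - ε / 2) (by linarith)
  filter_upwards [hev1, hev2] with τ hτ h2
  obtain ⟨hτ, hτ1, hτc⟩ := hτ
  set m : (Fin d → ℝ) → ℝ := fun x => Real.exp (τ * q x) with hm
  have hmC : ContDiff ℝ 1 m := (contDiff_const.mul hqC).exp
  have hm1 : ∀ x, |m x - 1| ≤ η ∧ ∀ k, |LTd.pd k m x| ≤ η := by
    intro x
    have hτq : |τ * q x| ≤ τ * L := by
      rw [abs_mul, abs_of_pos hτ]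
      exact mul_le_mul_of_nonneg_left (hL x) hτ.le
    have hτL : τ * L ≤ L := by nlinarith
    constructor
    · refine (abs_exp_one (τ * q x)).trans ?_
      have h3 : |τ * q x| * Real.exp |τ * q x| ≤ (τ * L) * Real.exp L :=
        mul_le_mul hτq (Real.exp_le_exp.2 (hτq.trans hτL)) (Real.exp_pos _).le (by positivity)
      refine h3.trans (le_trans ?_ hτc)
      rw [hc]
      have : 0 ≤ τ * (Real.exp L * B / (2 * s)) := by positivity
      nlinarith
    · intro k
      have h3 : LTd.pd k m x = τ / (2 * s) * (m x * b x k) := by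
        have h4 : HasFDerivAt (den f) (fderiv ℝ (den f) x) x :=
          (hden.differentiable one_ne_zero x).hasFDerivAt
        have h5 : HasFDerivAt m (m x • (τ / (2 * s)) • ((den f x + δ)⁻¹ •
            fderiv ℝ (den f) x)) x := by
          have h6 := (((h4.add_const δ).log (dn_pos hδ f x).ne').const_mul (τ / (2 * s))).exp
          have e1 : m = fun x => Real.exp (τ / (2 * s) * Real.log (den f x + δ)) := by
            funext x
            rw [hm, hq]
            beta_reduce
            congr 1
            ring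
          rw [e1]
          exact h6
        unfold LTd.pd
        rw [h5.fderiv]
        simp only [ContinuousLinearMap.smul_apply, smul_eq_mul]
        rw [hbdef, bb, LTd.pd]
        ring
      rw [h3, abs_mul, abs_mul, abs_of_pos (by positivity : 0 < τ / (2 * s)),
        abs_of_pos (Real.exp_pos _)]
      have h4 : m x ≤ Real.exp L := Real.exp_le_exp.2 ((le_abs_self _).trans (hτq.trans hτL))
      have h5 : m x * |b x k| ≤ Real.exp L * B :=
        mul_le_mul h4 (hB x k) (abs_nonneg _) (Real.exp_pos _).le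
      have h6 := mul_le_mul_of_nonneg_left h5 (by positivity : 0 ≤ τ / (2 * s))
      refine h6.trans (le_trans ?_ hτc)
      rw [hc]
      have e1 : τ / (2 * s) * (Real.exp L * B) = τ * (Real.exp L * B / (2 * s)) := by ring
      rw [e1]
      have : 0 ≤ τ * (L * Real.exp L) := by positivity
      nlinarith
  set g : Fin n → (Fin d → ℝ) → ℝ := fun i x => m x * f i x with hg
  have hgC : ∀ i, ContDiff ℝ 1 (g i) := fun i => hmC.mul (hf i)
  have hgs : ∀ i, HasCompactSupport (g i) := fun i => (hs i).mul_left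
  have hGc : Continuous (Function.uncurry fun x y : Fin d → ℝ => G τ (x - y)) :=
    (G_cont τ).comp (by fun_prop)
  -- the decomposition
  have dec : ∀ i, ∫ x, ∫ y, f i x * ((den f x + δ) ^ (τ / (2 * s)) * (kf (1 / 2) τ b x y *
        (den f y + δ) ^ (τ / (2 * s))) * f i y) =
      (∫ x, ∫ y, g i x * (G τ (x - y) * g i y)) +
        ((∫ x, ∫ y, f i x * (G τ (x - y) * zt τ b x y * f i y)) +
          ∫ x, ∫ y, f i x * (G τ (x - y) * Er q b τ x y * f i y)) := by
    intro i
    have j1 : Integrable (Function.uncurry fun x y => g i x * (G τ (x - y) * g i y))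
        (volume.prod volume) := int_prod (hgC i).continuous (hgs i) hGc
    have j2 : Integrable (Function.uncurry fun x y => f i x * (G τ (x - y) * zt τ b x y * f i y))
        (volume.prod volume) := int_prod (hf i).continuous (hs i)
          (hGc.mul (zt_cont hb τ continuous_fst continuous_snd))
    have j3 : Integrable (Function.uncurry fun x y => f i x * (G τ (x - y) * Er q b τ x y *
        f i y)) (volume.prod volume) := int_prod (hf i).continuous (hs i)
          (hGc.mul (Er_cont hqC.continuous hb τ continuous_fst continuous_snd))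
    have a1 : (∫ x, ∫ y, f i x * (G τ (x - y) * zt τ b x y * f i y)) +
        ∫ x, ∫ y, f i x * (G τ (x - y) * Er q b τ x y * f i y) =
        ∫ x, ∫ y, (f i x * (G τ (x - y) * zt τ b x y * f i y) +
          f i x * (G τ (x - y) * Er q b τ x y * f i y)) := (integral_integral_add j2 j3).symm
    have a2 : (∫ x, ∫ y, g i x * (G τ (x - y) * g i y)) +
        ∫ x, ∫ y, (f i x * (G τ (x - y) * zt τ b x y * f i y) +
          f i x * (G τ (x - y) * Er q b τ x y * f i y)) =
        ∫ x, ∫ y, (g i x * (G τ (x - y) * g i y) + (f i x * (G τ (x - y) * zt τ b x y * f i y) +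
          f i x * (G τ (x - y) * Er q b τ x y * f i y))) :=
      (integral_integral_add j1 (j2.add j3)).symm
    rw [a1, a2]
    congr 1
    funext x
    congr 1
    funext y
    rw [hpow, hpow, kf_eq]
    simp only [hg, hm, Er]
    ring
  simp only [dec]
  rw [Finset.sum_add_distrib]
  have hL' : ∀ i, (∫ x, g i x ^ 2) - τ * (∫ x, ∑ k, LTd.pd k (g i) x ^ 2) ≤
      ∫ x, ∫ y, g i x * (G τ (x - y) * g i y) := fun i => t_LOW d τ hτ (g i) (hgC i) (hgs i)
  have hsum := Finset.sum_le_sum fun i (_ : i ∈ Finset.univ) => hL' i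
  rw [Finset.sum_sub_distrib, ← Finset.mul_sum] at hsum
  have hkg : ∑ i, ∫ x, ∑ k, LTd.pd k (g i) x ^ 2 ≤ kin f + η * K :=
    kin_mul hf hs hmC hη0.le hη1 hm1
  -- the mass
  have ilog : Integrable fun x => den f x * Real.log (den f x + δ) :=
    (hden.continuous.mul hlogC.continuous).integrable_of_hasCompactSupport hdens.mul_right
  have hmass : (∫ x, den f x) + τ * (1 / s * ∫ x, den f x * Real.log (den f x + δ)) ≤
      ∑ i, ∫ x, g i x ^ 2 := by
    have ig : ∀ i, Integrable fun x => g i x ^ 2 := fun i =>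
      ((hgC i).continuous.pow 2).integrable_of_hasCompactSupport (sq_supp (hgs i))
    rw [← integral_finsetSum _ fun i _ => ig i, ← integral_const_mul, ← integral_const_mul,
      ← integral_add iden ((ilog.const_mul _).const_mul _)]
    refine integral_mono (iden.add ((ilog.const_mul _).const_mul _))
      (integrable_finsetSum _ fun i _ => ig i) ?_
    intro x
    beta_reduce
    have h3 : ∑ i, g i x ^ 2 = m x ^ 2 * den f x := by
      simp only [hg, mul_pow]
      rw [← Finset.mul_sum]
      rfl
    rw [h3]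
    have h4 : 1 + τ * (1 / s * Real.log (den f x + δ)) ≤ m x ^ 2 := by
      have h5 : m x ^ 2 = Real.exp (τ * (1 / s * Real.log (den f x + δ))) := by
        rw [hm, hq]
        beta_reduce
        rw [← Real.exp_nat_mul]
        congr 1
        push_cast
        field_simp
      rw [h5]
      have := Real.add_one_le_exp (τ * (1 / s * Real.log (den f x + δ)))
      linarith
    have h5 := mul_le_mul_of_nonneg_right h4 (dn_nn f x)
    refine le_trans (le_of_eq ?_) h5
    ring
  -- the conclusion
  have h3 : τ * (1 / 16 * fis δ f - ε / 2) ≤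
      ∑ i, ((∫ x, ∫ y, f i x * (G τ (x - y) * zt τ b x y * f i y)) +
        ∫ x, ∫ y, f i x * (G τ (x - y) * Er q b τ x y * f i y)) := by
    have h4 := mul_le_mul_of_nonneg_left h2.le hτ.le
    refine h4.trans (le_of_eq ?_)
    rw [Finset.mul_sum]
    refine Finset.sum_congr rfl fun i _ => ?_
    field_simp
  have h5 := mul_le_mul_of_nonneg_left hkg hτ.le
  have h6 := mul_le_mul_of_nonneg_left hηK hτ.le
  nlinarith

end Pool.Agent.L7h22.GF
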