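import Pool.Agent.L7h99.GF.Stm
import Pool.Agent.L7h32.SC.Low2
import Mathlib.Analysis.Calculus.LineDeriv.IntegrationByParts

set_option autoImplicit false
set_option linter.deprecated false

/-!
# Project GF: the bilinear form with the first-order correction, small times
-/

open MeasureTheory Set Filter Topology Real
open scoped ENNReal

namespace Pool.Agent.L7h22.GF

open Pool.Agent.L7h99.LS Pool.Agent.L7h99.SC Pool.Agent.L7h99.GF
open Pool.Agent.L7h32.SC (ev_iff hv_eq hv_conv int_G_mul hv_unif hv_contDiff pd_hv G_loc dn_C1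
  dn_supp dn_nn scale pw_ineq)
open Pool.Agent.L7h76.LS (G_int G_one mom mom_int shift_supp dir_cont dir_supp sq_supp t_LOW)

variable {d n : ℕ}

/-- The exponent. -/
noncomputable def zt (τ : ℝ) (b : (Fin d → ℝ) → Fin d → ℝ) (x y : Fin d → ℝ) : ℝ :=
  1 / 2 * (-(1 / 8) * dt (b y - b x) (y - x) - τ / 16 * (dt (b x) (b x) + dt (b y) (b y)))

theorem kf_eq (τ : ℝ) (b : (Fin d → ℝ) → Fin d → ℝ) (x y : Fin d → ℝ) :
    kf (1 / 2) τ b x y = G τ (x - y) * Real.exp (zt τ b x y) := rfl

theorem G_exp (τ : ℝ) (z : Fin d → ℝ) :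
    G τ z = ((√(4 * π * τ))⁻¹) ^ d * Real.exp (-(∑ i, z i ^ 2) / (4 * τ)) := by
  unfold G
  rw [Finset.prod_mul_distrib, Finset.prod_const, Finset.card_univ, Fintype.card_fin,
    ← Real.exp_sum]
  congr 2
  rw [Finset.sum_neg_distrib, ← Finset.sum_div]
  ring

theorem G_diff (τ : ℝ) (x y : Fin d → ℝ) : HasFDerivAt (fun y => G τ (x - y))
    (G τ (x - y) • ((1 / (2 * τ)) • ∑ i, (x i - y i) •
      (ContinuousLinearMap.proj i : (Fin d → ℝ) →L[ℝ] ℝ))) y := by
  have h1 : ∀ i : Fin d, HasFDerivAt (fun y : Fin d → ℝ => (x i - y i) ^ 2)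
      ((2 * (x i - y i)) • (-(ContinuousLinearMap.proj i : (Fin d → ℝ) →L[ℝ] ℝ))) y := by
    intro i
    have h2 : HasFDerivAt (fun y : Fin d → ℝ => x i - y i)
        (-(ContinuousLinearMap.proj i : (Fin d → ℝ) →L[ℝ] ℝ)) y :=
      (ContinuousLinearMap.proj i : (Fin d → ℝ) →L[ℝ] ℝ).hasFDerivAt.const_sub (x i)
    have h3 := h2.pow 2
    simpa using h3
  have h4 := HasFDerivAt.fun_sum fun i (_ : i ∈ Finset.univ) => h1 i
  have h5 := ((h4.neg.mul_const (4 * τ)⁻¹).exp).const_mul (((√(4 * π * τ))⁻¹) ^ d)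
  have e1 : (fun y => G τ (x - y)) = fun y : Fin d → ℝ => ((√(4 * π * τ))⁻¹) ^ d *
      Real.exp (-(∑ i, (x i - y i) ^ 2) * (4 * τ)⁻¹) := by
    funext y
    rw [G_exp, div_eq_mul_inv]
    rfl
  rw [e1]
  refine h5.congr_fderiv ?_
  have e2 : G τ (x - y) = ((√(4 * π * τ))⁻¹) ^ d *
      Real.exp (-(∑ i, (x i - y i) ^ 2) * (4 * τ)⁻¹) := congrFun e1 y
  rw [e2]
  ext v
  simp only [ContinuousLinearMap.smul_apply, ContinuousLinearMap.neg_apply, smul_eq_mul,
    ContinuousLinearMap.sum_apply, ContinuousLinearMap.proj_apply, Finset.mul_sum,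
    mul_neg, Finset.sum_neg_distrib, neg_neg, Pi.neg_apply]
  refine Finset.sum_congr rfl fun i _ => ?_
  by_cases hτ : τ = 0
  · subst hτ; simp
  · field_simp
    ring

/-- Integration by parts. -/
theorem ibp {τ : ℝ} (hτ : 0 < τ) {f : (Fin d → ℝ) → ℝ} (hf : ContDiff ℝ 1 f)
    (hs : HasCompactSupport f) (k : Fin d) (x : Fin d → ℝ) :
    ∫ y, f y * (G τ (x - y) * (y k - x k)) = 2 * τ * Hv τ (LTd.pd k f) x := by
  have hGc : Continuous fun y : Fin d → ℝ => G τ (x - y) := (G_cont τ).comp (by fun_prop)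
  have hGd : Differentiable ℝ fun y : Fin d → ℝ => G τ (x - y) := fun y =>
    (G_diff τ x y).differentiableAt
  have hGf : ∀ y, fderiv ℝ (fun y : Fin d → ℝ => G τ (x - y)) y (Pi.single k 1) =
      -(1 / (2 * τ)) * (G τ (x - y) * (y k - x k)) := by
    intro y
    rw [(G_diff τ x y).fderiv]
    simp only [ContinuousLinearMap.smul_apply, smul_eq_mul, ContinuousLinearMap.sum_apply,
      ContinuousLinearMap.proj_apply]
    rw [Finset.sum_eq_single k]
    · simp; ring
    · intro i _ hi; simp [Pi.single_eq_of_ne hi]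
    · intro h; exact absurd (Finset.mem_univ k) h
  have hp := LTd.pd_basic hf hs k
  have i1 : Integrable fun y => fderiv ℝ f y (Pi.single k 1) * G τ (x - y) :=
    (hp.1.mul hGc).integrable_of_hasCompactSupport hp.2.mul_right
  have i2 : Integrable fun y => f y * fderiv ℝ (fun y : Fin d → ℝ => G τ (x - y)) y
      (Pi.single k 1) := by
    simp only [hGf]
    exact (hf.continuous.mul (continuous_const.mul (hGc.mul
      (by fun_prop)))).integrable_of_hasCompactSupport hs.mul_right
  have i3 : Integrable fun y => f y * G τ (x - y) :=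
    (hf.continuous.mul hGc).integrable_of_hasCompactSupport hs.mul_right
  have h1 := integral_mul_fderiv_eq_neg_fderiv_mul_of_integrable i1 i2 i3
    (fun y _ => (hf.differentiable one_ne_zero) y) (fun y _ => hGd y)
  simp only [hGf] at h1
  have h2 : ∫ y, f y * (-(1 / (2 * τ)) * (G τ (x - y) * (y k - x k))) =
      -(1 / (2 * τ)) * ∫ y, f y * (G τ (x - y) * (y k - x k)) := by
    rw [← integral_const_mul]
    congr 1
    funext y
    ring
  rw [h2] at h1
  have h3 : Hv τ (LTd.pd k f) x = ∫ y, fderiv ℝ f y (Pi.single k 1) * G τ (x - y) := by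
    unfold Hv LTd.pd
    congr 1
    funext y
    ring
  rw [h3]
  have h4 : ∫ y, fderiv ℝ f y (Pi.single k 1) * G τ (x - y) =
      (1 / (2 * τ)) * ∫ y, f y * (G τ (x - y) * (y k - x k)) := by linarith
  rw [h4]
  field_simp

theorem hv_cont {τ : ℝ} (hτ : 0 < τ) {g : (Fin d → ℝ) → ℝ} (hg : Continuous g)
    (hs : HasCompactSupport g) : Continuous (Hv τ g) := by
  rw [hv_conv]
  exact hs.continuous_convolution_right _ (G_loc hτ) hg

theorem ulim {φ g : (Fin d → ℝ) → ℝ} (hφ : Continuous φ) (hφs : HasCompactSupport φ)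
    (hg : Continuous g) (hs : HasCompactSupport g) :
    Tendsto (fun τ : ℝ => ∫ x, φ x * Hv τ g x) (𝓝[>] 0) (𝓝 (∫ x, φ x * g x)) := by
  refine tendsto_integral_filter_of_dominated_convergence (fun x => |φ x| * (|g x| + 1)) ?_ ?_ ?_ ?_
  · filter_upwards [self_mem_nhdsWithin] with τ hτ
    exact (hφ.mul (hv_cont hτ hg hs)).aestronglyMeasurable
  · filter_upwards [hv_unif hg hs one_pos] with τ hτ
    refine ae_of_all _ fun x => ?_
    rw [norm_mul, Real.norm_eq_abs, Real.norm_eq_abs]
    refine mul_le_mul_of_nonneg_left ?_ (abs_nonneg _)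
    have h1 := hτ x
    have h2 := abs_sub_abs_le_abs_sub (Hv τ g x) (g x)
    linarith
  · exact (hφ.abs.mul (hg.abs.add continuous_const)).integrable_of_hasCompactSupport
      (hφs.abs.mul_right)
  · refine ae_of_all _ fun x => ?_
    refine Tendsto.const_mul _ ?_
    rw [Metric.tendsto_nhds]
    intro ε hε
    filter_upwards [hv_unif hg hs (half_pos hε)] with τ hτ
    rw [Real.dist_eq]
    have := hτ x
    linarith

theorem dt_cont {X : Type} [TopologicalSpace X] {u v : X → Fin d → ℝ} (hu : Continuous u)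
    (hv : Continuous v) : Continuous fun x => dt (u x) (v x) := by
  unfold dt
  exact continuous_finsetSum _ fun k _ =>
    ((continuous_apply k).comp hu).mul ((continuous_apply k).comp hv)

theorem zt_cont {b : (Fin d → ℝ) → Fin d → ℝ} (hb : Continuous b) (τ : ℝ) {X : Type}
    [TopologicalSpace X] {u v : X → Fin d → ℝ} (hu : Continuous u) (hv : Continuous v) :
    Continuous fun x => zt τ b (u x) (v x) := by
  unfold zt
  have h1 := hb.comp hu
  have h2 := hb.comp hv
  exact continuous_const.mul ((continuous_const.mul (dt_cont (h2.sub h1) (hv.sub hu))).sub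
    (continuous_const.mul ((dt_cont h1 h1).add (dt_cont h2 h2))))

/-- A product of two functions of compact support times a continuous function is integrable. -/
theorem int_prod {f : (Fin d → ℝ) → ℝ} (hf : Continuous f) (hs : HasCompactSupport f)
    {H : (Fin d → ℝ) → (Fin d → ℝ) → ℝ} (hH : Continuous (Function.uncurry H)) :
    Integrable (Function.uncurry fun x y => f x * (H x y * f y)) (volume.prod volume) := by
  have h1 : Continuous (Function.uncurry fun x y => f x * (H x y * f y)) :=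
    (hf.comp continuous_fst).mul (hH.mul (hf.comp continuous_snd))
  refine h1.integrable_of_hasCompactSupport ?_
  refine HasCompactSupport.intro (K := tsupport f ×ˢ tsupport f) (hs.isCompact.prod hs.isCompact) ?_
  rintro ⟨x, y⟩ hxy
  simp only [Function.uncurry]
  by_cases hx : x ∈ tsupport f
  · have hy : y ∉ tsupport f := fun h => hxy ⟨hx, h⟩
    rw [image_eq_zero_of_notMem_tsupport hy, mul_zero, mul_zero]
  · rw [image_eq_zero_of_notMem_tsupport hx, zero_mul]

end Pool.Agent.L7h22.GF
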