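import Pool.Agent.L7h22.GF.LowA

set_option autoImplicit false
set_option linter.deprecated false

/-!
# Project GF: the bilinear form with the first-order correction, small times (limits)
-/

open MeasureTheory Set Filter Topology Real
open scoped ENNReal

namespace Pool.Agent.L7h22.GF

open Pool.Agent.L7h99.LS Pool.Agent.L7h99.SC Pool.Agent.L7h99.GF
open Pool.Agent.L7h32.SC (ev_iff hv_eq hv_conv int_G_mul hv_unif hv_contDiff pd_hv G_loc dn_C1
  dn_supp dn_nn scale pw_ineq)
open Pool.Agent.L7h76.LS (G_int G_one mom mom_int shift_supp dir_cont dir_supp sq_supp t_LOW)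

variable {d n : ℕ}

theorem main_eq {b : (Fin d → ℝ) → Fin d → ℝ} (hb : Continuous b) {τ : ℝ} (hτ : 0 < τ)
    {f : (Fin d → ℝ) → ℝ} (hf : ContDiff ℝ 1 f) (hs : HasCompactSupport f) :
    ∫ x, ∫ y, f x * (G τ (x - y) * zt τ b x y * f y) =
      τ * (1 / 4 * (∑ k, ∫ x, (f x * b x k) * Hv τ (LTd.pd k f) x) -
        1 / 16 * ∫ x, (f x * dt (b x) (b x)) * Hv τ f x) := by
  have hGc : Continuous (Function.uncurry fun x y : Fin d → ℝ => G τ (x - y)) :=
    (G_cont τ).comp (by fun_prop)
  have hbc : ∀ k, Continuous fun x => b x k := fun k => (continuous_apply k).comp hb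
  set H : (Fin d → ℝ) → (Fin d → ℝ) → ℝ := fun x y =>
    G τ (x - y) * (1 / 16 * dt (b x) (y - x) - τ / 32 * dt (b x) (b x)) with hH
  have hHc : Continuous (Function.uncurry H) := by
    have h1 : Continuous fun p : (Fin d → ℝ) × (Fin d → ℝ) => b p.1 := hb.comp continuous_fst
    have h2 : Continuous fun p : (Fin d → ℝ) × (Fin d → ℝ) => p.2 - p.1 := by fun_prop
    exact hGc.mul ((continuous_const.mul (dt_cont h1 h2)).sub
      (continuous_const.mul (dt_cont h1 h1)))
  set P : (Fin d → ℝ) → (Fin d → ℝ) → ℝ := fun x y => f x * (H x y * f y) with hP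
  have hPi : Integrable (Function.uncurry P) (volume.prod volume) :=
    int_prod hf.continuous hs hHc
  have hPi' : Integrable (Function.uncurry fun x y => P y x) (volume.prod volume) := hPi.swap
  have e1 : ∀ x y, f x * (G τ (x - y) * zt τ b x y * f y) = P x y + P y x := by
    intro x y
    simp only [hP, hH, G_symm τ y x, zt]
    have h1 : dt (b y - b x) (y - x) = -dt (b x) (y - x) - dt (b y) (x - y) := by
      unfold dt
      rw [← Finset.sum_neg_distrib, ← Finset.sum_sub_distrib]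
      refine Finset.sum_congr rfl fun k _ => ?_
      simp only [Pi.sub_apply]
      ring
    rw [h1]
    ring
  simp only [e1]
  have e0 : ∫ x, ∫ y, (P x y + P y x) = (∫ x, ∫ y, P x y) + ∫ x, ∫ y, P y x :=
    integral_integral_add hPi hPi'
  have e0' : ∫ x, ∫ y, P y x = ∫ y, ∫ x, P y x := integral_integral_swap hPi'
  rw [e0, e0']
  have e2 : ∀ x, ∫ y, P x y = τ * (1 / 8 * (∑ k, (f x * b x k) * Hv τ (LTd.pd k f) x) -
      1 / 32 * ((f x * dt (b x) (b x)) * Hv τ f x)) := by
    intro x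
    have hGx : Continuous fun y : Fin d → ℝ => G τ (x - y) := (G_cont τ).comp (by fun_prop)
    have i1 : ∀ k, Integrable fun y => f y * (G τ (x - y) * (y k - x k)) := fun k =>
      (hf.continuous.mul (hGx.mul (by fun_prop))).integrable_of_hasCompactSupport hs.mul_right
    have i2 : Integrable fun y => G τ (x - y) * f y :=
      (hGx.mul hf.continuous).integrable_of_hasCompactSupport hs.mul_left
    have e3 : ∀ y, P x y = (∑ k, (f x * (1 / 16) * b x k) * (f y * (G τ (x - y) * (y k - x k)))) -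
        (f x * (τ / 32) * dt (b x) (b x)) * (G τ (x - y) * f y) := by
      intro y
      simp only [hP, hH]
      have h1 : (∑ k, (f x * (1 / 16) * b x k) * (f y * (G τ (x - y) * (y k - x k)))) =
          f x * (G τ (x - y) * (1 / 16 * dt (b x) (y - x)) * f y) := by
        unfold dt
        simp only [Finset.mul_sum, Finset.sum_mul, Pi.sub_apply]
        refine Finset.sum_congr rfl fun k _ => ?_
        ring
      rw [h1]
      ring
    simp only [e3]
    rw [integral_sub (integrable_finsetSum _ fun k _ => (i1 k).const_mul _) (i2.const_mul _),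
      integral_finsetSum _ fun k _ => (i1 k).const_mul _, integral_const_mul]
    simp only [integral_const_mul, ibp hτ hf hs]
    have h2 : ∫ y, G τ (x - y) * f y = Hv τ f x := rfl
    rw [h2, mul_sub, Finset.mul_sum, Finset.mul_sum]
    congr 1
    · refine Finset.sum_congr rfl fun k _ => ?_
      ring
    · ring
  simp only [e2]
  have i3 : ∀ k, Integrable fun x => (f x * b x k) * Hv τ (LTd.pd k f) x := by
    intro k
    have hp := LTd.pd_basic hf hs k
    exact ((hf.continuous.mul (hbc k)).mul (hv_cont hτ hp.1 hp.2)).integrable_of_hasCompactSupport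
      (hs.mul_right.mul_right)
  have i4 : Integrable fun x => (f x * dt (b x) (b x)) * Hv τ f x :=
    ((hf.continuous.mul (dt_cont hb hb)).mul
      (hv_cont hτ hf.continuous hs)).integrable_of_hasCompactSupport (hs.mul_right.mul_right)
  rw [integral_const_mul, integral_sub ((integrable_finsetSum _ fun k _ => i3 k).const_mul _)
    (i4.const_mul _), integral_const_mul, integral_const_mul, integral_finsetSum _ fun k _ => i3 k]
  ring

theorem main_lim {b : (Fin d → ℝ) → Fin d → ℝ} (hb : Continuous b)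
    {f : (Fin d → ℝ) → ℝ} (hf : ContDiff ℝ 1 f) (hs : HasCompactSupport f) :
    Tendsto (fun τ : ℝ => τ⁻¹ * ∫ x, ∫ y, f x * (G τ (x - y) * zt τ b x y * f y)) (𝓝[>] 0)
      (𝓝 (1 / 4 * (∑ k, ∫ x, (f x * b x k) * LTd.pd k f x) -
        1 / 16 * ∫ x, (f x * dt (b x) (b x)) * f x)) := by
  have hbc : ∀ k, Continuous fun x => b x k := fun k => (continuous_apply k).comp hb
  have h1 : Tendsto (fun τ : ℝ => 1 / 4 * (∑ k, ∫ x, (f x * b x k) * Hv τ (LTd.pd k f) x) -
      1 / 16 * ∫ x, (f x * dt (b x) (b x)) * Hv τ f x) (𝓝[>] 0)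
      (𝓝 (1 / 4 * (∑ k, ∫ x, (f x * b x k) * LTd.pd k f x) -
        1 / 16 * ∫ x, (f x * dt (b x) (b x)) * f x)) := by
    refine Tendsto.sub (Tendsto.const_mul _ (tendsto_finsetSum _ fun k _ => ?_))
      (Tendsto.const_mul _ ?_)
    · have hp := LTd.pd_basic hf hs k
      exact ulim (hf.continuous.mul (hbc k)) hs.mul_right hp.1 hp.2
    · exact ulim (hf.continuous.mul (dt_cont hb hb)) hs.mul_right hf.continuous hs
  refine h1.congr' ?_
  filter_upwards [self_mem_nhdsWithin] with τ hτ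
  have hτ' : (0:ℝ) < τ := hτ
  rw [main_eq hb hτ' hf hs, inv_mul_cancel_left₀ hτ'.ne']

theorem abs_exp_one (x : ℝ) : |Real.exp x - 1| ≤ |x| * Real.exp |x| := by
  have h := Complex.norm_exp_sub_sum_le_norm_mul_exp (x : ℂ) 1
  simp only [Finset.sum_range_one, pow_zero, Nat.factorial_zero, Nat.cast_one, div_one, pow_one]
    at h
  rw [← Complex.ofReal_exp, ← Complex.ofReal_one, ← Complex.ofReal_sub, Complex.norm_real,
    Complex.norm_real] at h
  simpa [Real.norm_eq_abs] using h

theorem abs_exp_two (x : ℝ) : |Real.exp x - 1 - x| ≤ x ^ 2 * Real.exp |x| := by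
  have h := Complex.norm_exp_sub_sum_le_norm_mul_exp (x : ℂ) 2
  have e : ∑ m ∈ Finset.range 2, (x : ℂ) ^ m / (m.factorial : ℂ) = 1 + x := by
    simp [Finset.sum_range_succ]
  rw [e, ← Complex.ofReal_exp, ← Complex.ofReal_one, ← Complex.ofReal_add, ← Complex.ofReal_sub,
    Complex.norm_real, Complex.norm_real] at h
  rw [Real.norm_eq_abs, Real.norm_eq_abs, sq_abs] at h
  have e2 : Real.exp x - 1 - x = Real.exp x - (1 + x) := by ring
  rw [e2]
  exact h

/-- The pointwise bound of the error. -/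
theorem err_pt {L Z τ p r z : ℝ} (hL : 0 ≤ L) (hτ : 0 < τ) (hτ1 : τ ≤ 1) (hp : |p| ≤ L)
    (hr : |r| ≤ L) (hz : |z| ≤ Z) :
    |Real.exp (τ * p) * Real.exp (τ * r) * (Real.exp z - 1) - z| ≤
      (2 * L * Real.exp (2 * L) + 1) * Real.exp Z * (τ * |z| + z ^ 2) := by
  have h1 : |Real.exp (τ * p + τ * r) - 1| ≤ τ * (2 * L * Real.exp (2 * L)) := by
    have h2 := abs_exp_one (τ * p + τ * r)
    have h3 : |τ * p + τ * r| ≤ τ * (2 * L) := by
      rw [← mul_add, abs_mul, abs_of_pos hτ]
      refine mul_le_mul_of_nonneg_left ?_ hτ.le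
      have := abs_add_le p r
      linarith
    have h4 : |τ * p + τ * r| ≤ 2 * L := h3.trans (by nlinarith)
    refine h2.trans ?_
    calc _ ≤ (τ * (2 * L)) * Real.exp (2 * L) :=
          mul_le_mul h3 (Real.exp_le_exp.2 h4) (Real.exp_pos _).le (by positivity)
      _ = _ := by ring
  have h5 : Real.exp (τ * p) * Real.exp (τ * r) * (Real.exp z - 1) - z =
      (Real.exp (τ * p + τ * r) - 1) * (Real.exp z - 1) + (Real.exp z - 1 - z) := by
    rw [Real.exp_add]; ring
  rw [h5]
  refine (abs_add_le _ _).trans ?_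
  rw [abs_mul]
  have h6 : |Real.exp z - 1| ≤ |z| * Real.exp Z :=
    (abs_exp_one z).trans (mul_le_mul_of_nonneg_left (Real.exp_le_exp.2 hz) (abs_nonneg _))
  have h7 : |Real.exp z - 1 - z| ≤ z ^ 2 * Real.exp Z :=
    (abs_exp_two z).trans (mul_le_mul_of_nonneg_left (Real.exp_le_exp.2 hz) (sq_nonneg _))
  have h8 := mul_le_mul h1 h6 (abs_nonneg _) (by positivity)
  have h9 : 0 ≤ 2 * L * Real.exp (2 * L) * Real.exp Z * z ^ 2 := by positivity
  have h10 : 0 ≤ Real.exp Z * (τ * |z|) := by positivity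
  calc _ ≤ τ * (2 * L * Real.exp (2 * L)) * (|z| * Real.exp Z) + z ^ 2 * Real.exp Z :=
        add_le_add h8 h7
    _ ≤ _ := by nlinarith

theorem abs_dt_le {a v : Fin d → ℝ} {B : ℝ} (ha : ∀ k, |a k| ≤ B) :
    |dt a v| ≤ B * ∑ k, |v k| := by
  unfold dt
  refine (Finset.abs_sum_le_sum_abs _ _).trans ?_
  rw [Finset.mul_sum]
  refine Finset.sum_le_sum fun k _ => ?_
  rw [abs_mul]
  exact mul_le_mul_of_nonneg_right (ha k) (abs_nonneg _)

theorem dt_self_le {a : Fin d → ℝ} {B : ℝ} (ha : ∀ k, |a k| ≤ B) :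
    |dt a a| ≤ d * B ^ 2 := by
  unfold dt
  refine (Finset.abs_sum_le_sum_abs _ _).trans ?_
  have : ∑ k : Fin d, |a k * a k| ≤ ∑ _k : Fin d, B ^ 2 := by
    refine Finset.sum_le_sum fun k _ => ?_
    rw [abs_mul, sq]
    have h0 := abs_nonneg (a k)
    exact mul_le_mul (ha k) (ha k) h0 (h0.trans (ha k))
  simpa using this

/-- The rescaled exponent. -/
noncomputable def uu (b : (Fin d → ℝ) → Fin d → ℝ) (t : ℝ) (x v : Fin d → ℝ) : ℝ :=
  1 / 16 * dt (b (x - t • v) - b x) v -
    t / 32 * (dt (b x) (b x) + dt (b (x - t • v)) (b (x - t • v)))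

theorem zt_uu (b : (Fin d → ℝ) → Fin d → ℝ) {τ : ℝ} (hτ : 0 < τ) (x v : Fin d → ℝ) :
    zt τ b x (x - √τ • v) = √τ * uu b (√τ) x v := by
  unfold zt uu
  have h1 : dt (b (x - √τ • v) - b x) (x - √τ • v - x) = -√τ * dt (b (x - √τ • v) - b x) v := by
    unfold dt
    rw [Finset.mul_sum]
    refine Finset.sum_congr rfl fun k _ => ?_
    simp only [Pi.sub_apply, Pi.smul_apply, smul_eq_mul]
    ring
  rw [h1]
  have h2 : √τ * √τ = τ := Real.mul_self_sqrt hτ.le
  calc _ = 1 / 2 * (-(1 / 8) * (-√τ * dt (b (x - √τ • v) - b x) v) -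
      (√τ * √τ) / 16 * (dt (b x) (b x) + dt (b (x - √τ • v)) (b (x - √τ • v)))) := by rw [h2]
    _ = _ := by ring

theorem uu_le {b : (Fin d → ℝ) → Fin d → ℝ} {B : ℝ} (hB : ∀ x k, |b x k| ≤ B) {t : ℝ}
    (ht : 0 ≤ t) (ht1 : t ≤ 1) (x v : Fin d → ℝ) :
    |uu b t x v| ≤ B / 8 * (∑ k, |v k|) + d * B ^ 2 / 16 := by
  unfold uu
  have h1 : |dt (b (x - t • v) - b x) v| ≤ 2 * B * ∑ k, |v k| := by
    refine abs_dt_le fun k => ?_
    have h2 := abs_sub (b (x - t • v) k) (b x k)
    have h3 := hB (x - t • v) k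
    have h4 := hB x k
    show |b (x - t • v) k - b x k| ≤ 2 * B
    have h5 : |b (x - t • v) k - b x k| ≤ |b (x - t • v) k| + |b x k| := by
      have := abs_add_le (b (x - t • v) k) (-b x k)
      rwa [abs_neg, ← sub_eq_add_neg] at this
    linarith
  have h2 := dt_self_le (hB x)
  have h3 := dt_self_le (hB (x - t • v))
  have h4 : |dt (b x) (b x) + dt (b (x - t • v)) (b (x - t • v))| ≤ 2 * (d * B ^ 2) := by
    refine (abs_add_le _ _).trans ?_
    linarith
  have h5 : |1 / 16 * dt (b (x - t • v) - b x) v -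
      t / 32 * (dt (b x) (b x) + dt (b (x - t • v)) (b (x - t • v)))| ≤
      1 / 16 * |dt (b (x - t • v) - b x) v| +
        t / 32 * |dt (b x) (b x) + dt (b (x - t • v)) (b (x - t • v))| := by
    have := abs_add_le (1 / 16 * dt (b (x - t • v) - b x) v)
      (-(t / 32 * (dt (b x) (b x) + dt (b (x - t • v)) (b (x - t • v)))))
    rw [abs_neg, ← sub_eq_add_neg, abs_mul, abs_mul, abs_of_pos (by norm_num : (0:ℝ) < 1 / 16),
      abs_of_nonneg (by positivity : 0 ≤ t / 32)] at this
    exact this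
  refine h5.trans ?_
  have h6 : t / 32 * |dt (b x) (b x) + dt (b (x - t • v)) (b (x - t • v))| ≤
      1 / 32 * (2 * (d * B ^ 2)) :=
    mul_le_mul (by linarith) h4 (abs_nonneg _) (by norm_num)
  have h7 := mul_le_mul_of_nonneg_left h1 (by norm_num : (0:ℝ) ≤ 1 / 16)
  linarith

theorem sqrt_tendsto : Tendsto (fun τ : ℝ => √τ) (𝓝[>] 0) (𝓝 0) := by
  have : Tendsto Real.sqrt (𝓝 0) (𝓝 (√0)) := Real.continuous_sqrt.tendsto 0
  rw [Real.sqrt_zero] at this
  exact this.mono_left nhdsWithin_le_nhds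

theorem uu_lim {b : (Fin d → ℝ) → Fin d → ℝ} (hb : Continuous b) (x v : Fin d → ℝ) :
    Tendsto (fun τ : ℝ => uu b (√τ) x v) (𝓝[>] 0) (𝓝 0) := by
  have h1 : Continuous fun t : ℝ => uu b t x v := by
    unfold uu
    have h2 : Continuous fun t : ℝ => b (x - t • v) := hb.comp (by fun_prop)
    exact (continuous_const.mul (dt_cont (h2.sub continuous_const) continuous_const)).sub
      ((continuous_id.div_const _).mul (continuous_const.add (dt_cont h2 h2)))
  have h2 : uu b 0 x v = 0 := by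
    unfold uu dt
    simp
  have h3 := (h1.tendsto 0).comp sqrt_tendsto
  rw [h2] at h3
  exact h3

end Pool.Agent.L7h22.GF
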