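import Pool.Agent.L7h22.GF.LowB

set_option autoImplicit false
set_option linter.deprecated false

/-!
# Project GF: the bilinear form with the first-order correction, small times (the error)
-/

open MeasureTheory Set Filter Topology Real
open scoped ENNReal

namespace Pool.Agent.L7h22.GF

open Pool.Agent.L7h99.LS Pool.Agent.L7h99.SC Pool.Agent.L7h99.GF
open Pool.Agent.L7h32.SC (ev_iff hv_eq hv_conv int_G_mul hv_unif hv_contDiff pd_hv G_loc dn_C1
  dn_supp dn_nn scale pw_ineq)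
open Pool.Agent.L7h76.LS (G_int G_one mom mom_int shift_supp dir_cont dir_supp sq_supp t_LOW)

variable {d n : ℕ}

/-- The error kernel. -/
noncomputable def Er (q : (Fin d → ℝ) → ℝ) (b : (Fin d → ℝ) → Fin d → ℝ) (τ : ℝ)
    (x y : Fin d → ℝ) : ℝ :=
  Real.exp (τ * q x) * Real.exp (τ * q y) * (Real.exp (zt τ b x y) - 1) - zt τ b x y

theorem Er_cont {q : (Fin d → ℝ) → ℝ} (hq : Continuous q) {b : (Fin d → ℝ) → Fin d → ℝ}
    (hb : Continuous b) (τ : ℝ) {X : Type} [TopologicalSpace X] {u v : X → Fin d → ℝ}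
    (hu : Continuous u) (hv : Continuous v) : Continuous fun x => Er q b τ (u x) (v x) := by
  unfold Er
  have h1 := zt_cont hb τ hu hv
  have h2 := hq.comp hu
  have h3 := hq.comp hv
  exact ((((continuous_const.mul h2).rexp).mul ((continuous_const.mul h3).rexp)).mul
    (h1.rexp.sub continuous_const)).sub h1

theorem err_lim {f : (Fin d → ℝ) → ℝ} (hf : Continuous f) (hs : HasCompactSupport f)
    {b : (Fin d → ℝ) → Fin d → ℝ} (hb : Continuous b) {B : ℝ} (hB0 : 0 ≤ B)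
    (hB : ∀ x k, |b x k| ≤ B) {q : (Fin d → ℝ) → ℝ} (hq : Continuous q) {L : ℝ}
    (hL : ∀ x, |q x| ≤ L) :
    Tendsto (fun τ : ℝ => τ⁻¹ * ∫ x, ∫ y, f x * (G τ (x - y) * Er q b τ x y * f y)) (𝓝[>] 0)
      (𝓝 0) := by
  have hL0 : 0 ≤ L := (abs_nonneg _).trans (hL 0)
  obtain ⟨M, hM⟩ := hf.bounded_above_of_compact_support hs
  have hM0 : 0 ≤ M := (norm_nonneg _).trans (hM 0)
  obtain ⟨r, hr⟩ := hs.isCompact.isBounded.subset_closedBall (0 : Fin d → ℝ)
  have hfr : ∀ x, f x ≠ 0 → ‖x‖ ≤ |r| := by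
    intro x hx
    have := hr (subset_tsupport f hx)
    rw [Metric.mem_closedBall, dist_zero_right] at this
    exact this.trans (le_abs_self r)
  set Z : ℝ := 1 / 16 * (2 * B * (d * (2 * |r|))) + 1 / 32 * (2 * (d * B ^ 2)) with hZ
  have hzt : ∀ τ : ℝ, 0 < τ → τ ≤ 1 → ∀ x y, f x ≠ 0 → f y ≠ 0 → |zt τ b x y| ≤ Z := by
    intro τ hτ hτ1 x y hx hy
    have h1 := hfr x hx
    have h2 := hfr y hy
    have h3 : |dt (b y - b x) (y - x)| ≤ 2 * B * (d * (2 * |r|)) := by
      refine (abs_dt_le (B := 2 * B) fun k => ?_).trans ?_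
      · have h3 := hB y k
        have h4 := hB x k
        show |b y k - b x k| ≤ 2 * B
        have h5 := abs_add_le (b y k) (-b x k)
        rw [abs_neg, ← sub_eq_add_neg] at h5
        linarith
      · refine mul_le_mul_of_nonneg_left ?_ (by positivity)
        have h6 : ∑ k : Fin d, |(y - x) k| ≤ ∑ _k : Fin d, 2 * |r| := by
          refine Finset.sum_le_sum fun k _ => ?_
          have h7 := norm_le_pi_norm x k
          have h8 := norm_le_pi_norm y k
          rw [Real.norm_eq_abs] at h7 h8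
          have h5 := abs_add_le (y k) (-x k)
          rw [abs_neg, ← sub_eq_add_neg] at h5
          show |y k - x k| ≤ 2 * |r|
          linarith
        simpa using h6
    have h4 : |dt (b x) (b x) + dt (b y) (b y)| ≤ 2 * (d * B ^ 2) := by
      refine (abs_add_le _ _).trans ?_
      have := dt_self_le (hB x)
      have := dt_self_le (hB y)
      linarith
    unfold zt
    have h5 : |1 / 2 * (-(1 / 8) * dt (b y - b x) (y - x) -
        τ / 16 * (dt (b x) (b x) + dt (b y) (b y)))| ≤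
        1 / 16 * |dt (b y - b x) (y - x)| + τ / 32 * |dt (b x) (b x) + dt (b y) (b y)| := by
      have e1 : 1 / 2 * (-(1 / 8) * dt (b y - b x) (y - x) -
          τ / 16 * (dt (b x) (b x) + dt (b y) (b y))) =
          -(1 / 16 * dt (b y - b x) (y - x)) +
            -(τ / 32 * (dt (b x) (b x) + dt (b y) (b y))) := by ring
      rw [e1]
      refine (abs_add_le _ _).trans ?_
      rw [abs_neg, abs_neg, abs_mul, abs_mul, abs_of_pos (by norm_num : (0:ℝ) < 1 / 16),
        abs_of_pos (by positivity : 0 < τ / 32)]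
    refine h5.trans ?_
    have h6 : τ / 32 * |dt (b x) (b x) + dt (b y) (b y)| ≤ 1 / 32 * (2 * (d * B ^ 2)) :=
      mul_le_mul (by linarith) h4 (abs_nonneg _) (by norm_num)
    have h7 := mul_le_mul_of_nonneg_left h3 (by norm_num : (0:ℝ) ≤ 1 / 16)
    rw [hZ]
    linarith
  set C : ℝ := (2 * L * Real.exp (2 * L) + 1) * Real.exp Z with hC
  have hC0 : 0 ≤ C := by positivity
  -- the rescaled integrand
  set Ψ : ℝ → (Fin d → ℝ) × (Fin d → ℝ) → ℝ := fun τ p =>
    G 1 p.2 * (τ⁻¹ * (f p.1 * (Er q b τ p.1 (p.1 - √τ • p.2) * f (p.1 - √τ • p.2)))) with hΨ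
  have hΨc : ∀ τ, Continuous (Ψ τ) := by
    intro τ
    have h1 : Continuous fun p : (Fin d → ℝ) × (Fin d → ℝ) => p.1 - √τ • p.2 := by fun_prop
    exact ((G_cont 1).comp continuous_snd).mul (continuous_const.mul
      ((hf.comp continuous_fst).mul ((Er_cont hq hb τ continuous_fst h1).mul (hf.comp h1))))
  have hΨb : ∀ τ : ℝ, 0 < τ → τ ≤ 1 → ∀ p, |Ψ τ p| ≤
      G 1 p.2 * (|f p.1| * (M * (C * (|uu b (√τ) p.1 p.2| + uu b (√τ) p.1 p.2 ^ 2)))) := by
    rintro τ hτ hτ1 ⟨x, v⟩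
    simp only [hΨ]
    rw [abs_mul, abs_of_nonneg (G_nonneg _ _)]
    refine mul_le_mul_of_nonneg_left ?_ (G_nonneg _ _)
    by_cases hx : f x = 0
    · rw [hx]; simp
    by_cases hy : f (x - √τ • v) = 0
    · rw [hy]
      simp only [mul_zero, abs_zero]
      positivity
    rw [abs_mul, abs_mul, abs_mul]
    have h1 := hzt τ hτ hτ1 x _ hx hy
    have h2 := err_pt hL0 hτ hτ1 (hL x) (hL (x - √τ • v)) h1
    have h3 : |Er q b τ x (x - √τ • v)| ≤ C * (τ * |zt τ b x (x - √τ • v)| +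
        zt τ b x (x - √τ • v) ^ 2) := h2
    rw [zt_uu b hτ] at h3
    set u := uu b (√τ) x v
    have h4 : τ * |√τ * u| + (√τ * u) ^ 2 ≤ τ * (|u| + u ^ 2) := by
      rw [abs_mul, mul_pow, Real.sq_sqrt hτ.le, abs_of_nonneg (Real.sqrt_nonneg _)]
      have h5 : √τ ≤ 1 := Real.sqrt_le_one.2 hτ1
      have h6 := mul_le_mul_of_nonneg_right h5 (abs_nonneg u)
      have h7 := mul_le_mul_of_nonneg_left h6 hτ.le
      linarith
    have h5 : |Er q b τ x (x - √τ • v)| ≤ τ * (C * (|u| + u ^ 2)) :=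
      h3.trans ((mul_le_mul_of_nonneg_left h4 hC0).trans (le_of_eq (by ring)))
    have h6 : |f (x - √τ • v)| ≤ M := by rw [← Real.norm_eq_abs]; exact hM _
    rw [abs_of_pos (inv_pos.2 hτ)]
    have h7 : 0 ≤ C * (|u| + u ^ 2) := by positivity
    calc τ⁻¹ * (|f x| * (|Er q b τ x (x - √τ • v)| * |f (x - √τ • v)|)) ≤
        τ⁻¹ * (|f x| * ((τ * (C * (|u| + u ^ 2))) * M)) := by
          refine mul_le_mul_of_nonneg_left (mul_le_mul_of_nonneg_left ?_ (abs_nonneg _))
            (inv_pos.2 hτ).le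
          exact mul_le_mul h5 h6 (abs_nonneg _) (by positivity)
      _ = |f x| * (M * (C * (|u| + u ^ 2))) := by field_simp
  -- the dominating function
  set c₁ : ℝ := 1 + 4 * (d * B ^ 2 / 16) ^ 2 with hc₁
  set c₂ : ℝ := 4 * (B / 8) ^ 2 * d with hc₂
  set D : (Fin d → ℝ) × (Fin d → ℝ) → ℝ := fun p =>
    |f p.1| * (M * C * (G 1 p.2 * (c₁ + c₂ * ∑ k, p.2 k * p.2 k))) with hD
  have hDi : Integrable D (volume.prod volume) := by
    have h1 : Integrable fun x => |f x| := (hf.integrable_of_hasCompactSupport hs).abs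
    have h2 : Integrable fun v : Fin d → ℝ => M * C * (G 1 v * (c₁ + c₂ * ∑ k, v k * v k)) := by
      refine Integrable.const_mul ?_ _
      have h3 : (fun v : Fin d → ℝ => G 1 v * (c₁ + c₂ * ∑ k, v k * v k)) =
          fun v => c₁ * G 1 v + c₂ * ∑ k, v k * v k * G 1 v := by
        funext v
        rw [Finset.mul_sum, Finset.mul_sum, mul_add, Finset.mul_sum]
        congr 1
        · ring
        · refine Finset.sum_congr rfl fun k _ => ?_
          ring
      rw [h3]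
      exact ((G_int one_pos).const_mul _).add
        ((integrable_finsetSum _ fun k _ => mom_int one_pos k k).const_mul _)
    exact h1.mul_prod h2
  have hUD : ∀ τ : ℝ, 0 < τ → τ ≤ 1 → ∀ p, |Ψ τ p| ≤ D p := by
    rintro τ hτ hτ1 ⟨x, v⟩
    refine (hΨb τ hτ hτ1 _).trans ?_
    simp only [hD]
    set u := uu b (√τ) x v with hu
    have h1 : |u| ≤ B / 8 * (∑ k, |v k|) + d * B ^ 2 / 16 :=
      uu_le hB (Real.sqrt_nonneg _) (Real.sqrt_le_one.2 hτ1) x v
    have h2 : (∑ k, |v k|) ^ 2 ≤ d * ∑ k, v k * v k := by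
      have h3 := sq_sum_le_card_mul_sum_sq (s := (Finset.univ : Finset (Fin d)))
        (f := fun k => |v k|)
      rw [Finset.card_univ, Fintype.card_fin] at h3
      refine h3.trans (le_of_eq ?_)
      congr 1
      refine Finset.sum_congr rfl fun k _ => ?_
      rw [sq_abs, sq]
    have h3 : |u| + u ^ 2 ≤ c₁ + c₂ * ∑ k, v k * v k := by
      have h4 : u ^ 2 ≤ (B / 8 * (∑ k, |v k|) + d * B ^ 2 / 16) ^ 2 := by
        rw [← sq_abs u]
        exact pow_le_pow_left₀ (abs_nonneg _) h1 2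
      have h5 : |u| ≤ 1 + u ^ 2 := by
        rw [← sq_abs u]
        nlinarith [sq_nonneg (|u| - 1), abs_nonneg u]
      have h6 : (B / 8 * (∑ k, |v k|) + d * B ^ 2 / 16) ^ 2 ≤
          2 * (B / 8) ^ 2 * (∑ k, |v k|) ^ 2 + 2 * (d * B ^ 2 / 16) ^ 2 := by
        nlinarith [sq_nonneg (B / 8 * (∑ k, |v k|) - d * B ^ 2 / 16)]
      have h7 := mul_le_mul_of_nonneg_left h2 (by positivity : 0 ≤ 2 * (B / 8) ^ 2)
      rw [hc₁, hc₂]
      linarith
    have h4 : 0 ≤ |f x| * (M * C) * G 1 v := by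
      have := G_nonneg 1 v
      positivity
    calc G 1 v * (|f x| * (M * (C * (|u| + u ^ 2)))) =
        (|f x| * (M * C) * G 1 v) * (|u| + u ^ 2) := by ring
      _ ≤ (|f x| * (M * C) * G 1 v) * (c₁ + c₂ * ∑ k, v k * v k) :=
        mul_le_mul_of_nonneg_left h3 h4
      _ = _ := by ring
  have hΨi : ∀ τ : ℝ, 0 < τ → τ ≤ 1 → Integrable (Ψ τ) (volume.prod volume) := by
    intro τ hτ hτ1
    refine hDi.mono' (hΨc τ).aestronglyMeasurable (ae_of_all _ fun p => ?_)
    rw [Real.norm_eq_abs]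
    exact hUD τ hτ hτ1 p
  have hlt : ∀ᶠ τ : ℝ in 𝓝[>] 0, 0 < τ ∧ τ ≤ 1 := by
    filter_upwards [Ioo_mem_nhdsGT (zero_lt_one' ℝ)] with τ hτ
    exact ⟨hτ.1, hτ.2.le⟩
  have key : Tendsto (fun τ : ℝ => ∫ p, Ψ τ p ∂(volume.prod volume)) (𝓝[>] 0) (𝓝 0) := by
    have h0 : ∫ _p : (Fin d → ℝ) × (Fin d → ℝ), (0:ℝ) ∂(volume.prod volume) = 0 := by simp
    suffices hsuf : Tendsto (fun τ : ℝ => ∫ p, Ψ τ p ∂(volume.prod volume)) (𝓝[>] 0)
        (𝓝 (∫ _p : (Fin d → ℝ) × (Fin d → ℝ), (0:ℝ) ∂(volume.prod volume))) by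
      rwa [h0] at hsuf
    refine tendsto_integral_filter_of_dominated_convergence D ?_ ?_ hDi ?_
    · exact Eventually.of_forall fun τ => (hΨc τ).aestronglyMeasurable
    · filter_upwards [hlt] with τ hτ
      refine ae_of_all _ fun p => ?_
      rw [Real.norm_eq_abs]
      exact hUD τ hτ.1 hτ.2 p
    · refine ae_of_all _ fun p => ?_
      have h1 := uu_lim hb p.1 p.2
      have h2 : Tendsto (fun τ : ℝ => G 1 p.2 * (|f p.1| * (M * (C *
          (|uu b (√τ) p.1 p.2| + uu b (√τ) p.1 p.2 ^ 2))))) (𝓝[>] 0)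
          (𝓝 (G 1 p.2 * (|f p.1| * (M * (C * (|(0:ℝ)| + 0 ^ 2)))))) :=
        ((((h1.abs.add (h1.pow 2)).const_mul _).const_mul _).const_mul _).const_mul _
      have h3 : G 1 p.2 * (|f p.1| * (M * (C * (|(0:ℝ)| + 0 ^ 2)))) = 0 := by simp
      rw [h3] at h2
      refine squeeze_zero_norm' ?_ h2
      filter_upwards [hlt] with τ hτ
      rw [Real.norm_eq_abs]
      exact hΨb τ hτ.1 hτ.2 p
  refine key.congr' ?_
  filter_upwards [hlt] with τ hτ
  rw [integral_prod _ (hΨi τ hτ.1 hτ.2), ← integral_const_mul]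
  congr 1
  funext x
  rw [← integral_const_mul]
  -- change of variables in the inner integral
  have h1 : ∫ y, τ⁻¹ * (f x * (G τ (x - y) * Er q b τ x y * f y)) =
      ∫ z, G τ z * (τ⁻¹ * (f x * (Er q b τ x (x - z) * f (x - z)))) := by
    rw [← integral_sub_left_eq_self (fun y => τ⁻¹ * (f x * (G τ (x - y) * Er q b τ x y * f y)))
      volume x]
    congr 1
    funext z
    rw [sub_sub_cancel]
    ring
  rw [h1, scale hτ.1]

end Pool.Agent.L7h22.GF
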