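import Pool.Agent.L7h99.GF.Stm

set_option autoImplicit false

/-!
# Project GF: the inequality in a window from the Golden-Thompson inequality
-/

open MeasureTheory Set Filter Topology Real
open scoped ENNReal

namespace Pool.Agent.L7h22.GF

open Pool.Agent.L7h99.LS Pool.Agent.L7h99.SC Pool.Agent.L7h99.GF

theorem exp_le_quad {y : ℝ} (hy : y ≤ 1) : Real.exp y ≤ 1 + y + y ^ 2 := by
  rcases le_or_gt (-1) y with h | h
  · have := (abs_le.1 (Real.abs_exp_sub_one_sub_id_le (abs_le.2 ⟨h, hy⟩))).2
    linarith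
  · have := Real.exp_le_one_iff.2 (by linarith : y ≤ 0)
    nlinarith

theorem log_quad {A ω σ : ℝ} (hA : 0 < A) (hσ : 0 < σ) (h : σ ≤ A * Real.exp ω) :
    σ * (Real.log σ - Real.log A) ^ 2 ≤
      σ * (Real.log σ - Real.log A) + ω ^ 2 * σ + 2 * A := by
  set L := Real.log σ - Real.log A with hL
  have hLω : L ≤ ω := by
    have := Real.log_le_log hσ h
    rw [Real.log_mul hA.ne' (Real.exp_pos _).ne', Real.log_exp] at this
    linarith
  rcases le_or_gt 0 L with h0 | h0
  · have h1 : L ^ 2 ≤ ω ^ 2 := pow_le_pow_left₀ h0 hLω 2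
    have h2 := mul_le_mul_of_nonneg_left h1 hσ.le
    have h3 := mul_nonneg hσ.le h0
    linarith
  · have hσe : σ = A * Real.exp L := by
      rw [hL, Real.exp_sub, Real.exp_log hσ, Real.exp_log hA]
      field_simp
    have hq := Real.quadratic_le_exp_of_nonneg (by linarith : 0 ≤ -L)
    have h1 : Real.exp L * (L ^ 2 - L) ≤ 2 := by
      have e1 : Real.exp L * Real.exp (-L) = 1 := by rw [← Real.exp_add]; simp
      have h2 := mul_le_mul_of_nonneg_left hq (Real.exp_pos L).le
      rw [e1] at h2
      nlinarith [Real.exp_pos L]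
    have h2 : σ * L ^ 2 - σ * L = A * (Real.exp L * (L ^ 2 - L)) := by
      rw [hσe]; ring
    have h3 := mul_le_mul_of_nonneg_left h1 hA.le
    have h4 : 0 ≤ ω ^ 2 * σ := by positivity
    linarith

theorem pt {A ω σ p : ℝ} (hA : 0 < A) (hσ : 0 < σ) (hp : 0 < p) (hpω : p * ω ≤ 1)
    (h : σ ≤ A * Real.exp ω) :
    σ ^ (1 + p) ≤ A ^ p * (σ + p * (σ * (Real.log σ - Real.log A)) +
      p ^ 2 * (σ * (Real.log σ - Real.log A) + ω ^ 2 * σ + 2 * A)) := by
  have h1 := log_quad hA hσ h
  set L := Real.log σ - Real.log A with hL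
  have hLω : L ≤ ω := by
    have := Real.log_le_log hσ h
    rw [Real.log_mul hA.ne' (Real.exp_pos _).ne', Real.log_exp] at this
    linarith
  have hy : p * L ≤ 1 := (mul_le_mul_of_nonneg_left hLω hp.le).trans hpω
  have h2 := exp_le_quad hy
  have e1 : σ ^ (1 + p) = A ^ p * (σ * Real.exp (p * L)) := by
    rw [Real.rpow_add hσ, Real.rpow_one, Real.rpow_def_of_pos hσ, Real.rpow_def_of_pos hA]
    have : Real.exp (Real.log σ * p) = Real.exp (Real.log A * p) * Real.exp (p * L) := by
      rw [← Real.exp_add, hL]; congr 1; ring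
    rw [this]; ring
  rw [e1]
  refine mul_le_mul_of_nonneg_left ?_ (Real.rpow_nonneg hA.le _)
  have h3 := mul_le_mul_of_nonneg_left h2 hσ.le
  have h4 := mul_le_mul_of_nonneg_left h1 (sq_nonneg p)
  nlinarith

theorem t_WI (hGF : S_GF0) : S_WI := by
  intro ω hω
  obtain ⟨N, hN⟩ := exists_nat_ge (2 * ω)
  refine ⟨4 * ω ^ 2 + 23, max 4 N, by positivity, le_max_left _ _, ?_⟩
  intro d hd A hA Ω hΩm hΩ n f hf hfc hf0 hG hB
  have hd4' : 4 ≤ d := (le_max_left _ _).trans hd
  have hdN : N ≤ d := (le_max_right _ _).trans hd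
  have hd4 : (4:ℝ) ≤ d := by exact_mod_cast hd4'
  have hd0 : (0:ℝ) < d := by linarith
  have hd2 : 2 * ω ≤ d := hN.trans (by exact_mod_cast hdN)
  set p : ℝ := 2 / (d:ℝ) with hp
  have hp0 : 0 < p := by positivity
  have hpω : p * ω ≤ 1 := by
    rw [hp, div_mul_eq_mul_div, div_le_one hd0]; exact hd2
  set E : ℝ := A ^ p with hE
  have hE0 : 0 < E := Real.rpow_pos_of_pos hA _
  have hKp := Kcl_pos hd4'
  set Kc := LTd.Kcl d with hKc
  set EA : ℝ := (1 + p) * Kc * E with hEA
  have hEA0 : 0 < EA := by positivity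
  set Λ : ℝ := ∫ x, den f x with hΛ
  have hΛ0 : 0 ≤ Λ := integral_nonneg fun x => den_nonneg f x
  set V := (volume Ω).toReal with hV
  have hV0 : 0 ≤ V := ENNReal.toReal_nonneg
  set I := ∫ x, den f x ^ (1 + p) with hI
  set s : ℝ := d / (2 * EA) with hs
  have hs0 : 0 < s := by positivity
  have hg := hGF d n f hf hfc hG s hs0
  rw [← hΛ] at hg
  -- integrability
  have hdc : Continuous (den f) := (den_C1 hf).continuous
  have hdi : Integrable (den f) := hdc.integrable_of_hasCompactSupport (den_supp hfc)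
  have hli : Integrable fun x => den f x * Real.log (den f x) := by
    refine (Real.continuous_mul_log.comp hdc).integrable_of_hasCompactSupport ?_
    exact (den_supp hfc).mul_right
  have h1i : Integrable (Ω.indicator fun _ => (1:ℝ)) :=
    (integrable_indicator_iff hΩm).2 (integrableOn_const hΩ)
  have e1i : ∫ x, Ω.indicator (fun _ => (1:ℝ)) x = V := by
    rw [integral_indicator hΩm, setIntegral_const, smul_eq_mul, mul_one, Measure.real]
  set J₀ := ∫ x, den f x * Real.log (den f x) with hJ₀
  -- the pointwise inequality integrated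
  have hI1 : I ≤ E * (Λ + p * (J₀ - Real.log A * Λ) +
      p ^ 2 * ((J₀ - Real.log A * Λ) + ω ^ 2 * Λ + 2 * A * V)) := by
    have hint : ∫ x, E * (den f x + p * (den f x * Real.log (den f x) - Real.log A * den f x) +
        p ^ 2 * ((den f x * Real.log (den f x) - Real.log A * den f x) + ω ^ 2 * den f x +
          2 * A * Ω.indicator (fun _ => (1:ℝ)) x)) = E * (Λ + p * (J₀ - Real.log A * Λ) +
      p ^ 2 * ((J₀ - Real.log A * Λ) + ω ^ 2 * Λ + 2 * A * V)) := by
      have i1 : Integrable fun x => den f x * Real.log (den f x) - Real.log A * den f x :=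
        hli.sub (hdi.const_mul _)
      have i2 : Integrable fun x => (den f x * Real.log (den f x) - Real.log A * den f x) +
          ω ^ 2 * den f x := i1.add (hdi.const_mul _)
      have i3 : Integrable fun x => 2 * A * Ω.indicator (fun _ => (1:ℝ)) x := h1i.const_mul _
      have i4 : Integrable fun x => den f x +
          p * (den f x * Real.log (den f x) - Real.log A * den f x) := hdi.add (i1.const_mul _)
      have i5 : Integrable fun x => (den f x * Real.log (den f x) - Real.log A * den f x) +
          ω ^ 2 * den f x + 2 * A * Ω.indicator (fun _ => (1:ℝ)) x := i2.add i3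
      have i6 : Integrable fun x => p ^ 2 * ((den f x * Real.log (den f x) -
          Real.log A * den f x) + ω ^ 2 * den f x + 2 * A * Ω.indicator (fun _ => (1:ℝ)) x) :=
        i5.const_mul _
      rw [integral_const_mul, integral_add i4 i6,
        integral_add hdi (i1.const_mul _), integral_const_mul, integral_const_mul,
        integral_add i2 i3, integral_add i1 (hdi.const_mul _), integral_const_mul,
        integral_const_mul, integral_sub hli (hdi.const_mul _), integral_const_mul, e1i]
    rw [← hint]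
    refine integral_mono_of_nonneg (Eventually.of_forall fun x =>
      Real.rpow_nonneg (den_nonneg f x) _) ?_ (Eventually.of_forall fun x => ?_)
    · refine Integrable.const_mul ?_ _
      exact (hdi.add ((hli.sub (hdi.const_mul _)).const_mul _)).add
        ((((hli.sub (hdi.const_mul _)).add (hdi.const_mul _)).add (h1i.const_mul _)).const_mul _)
    · show den f x ^ (1 + p) ≤ E * (den f x + p * (den f x * Real.log (den f x) -
          Real.log A * den f x) + p ^ 2 * ((den f x * Real.log (den f x) -
          Real.log A * den f x) + ω ^ 2 * den f x + 2 * A * Ω.indicator (fun _ => (1:ℝ)) x))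
      rcases (den_nonneg f x).eq_or_lt with h | h
      · rw [← h, Real.zero_rpow (by positivity)]
        have : 0 ≤ Ω.indicator (fun _ => (1:ℝ)) x := indicator_nonneg (fun _ _ => zero_le_one) x
        simp only [zero_mul, mul_zero, sub_zero, zero_add]
        positivity
      · have hx : x ∈ Ω := by
          by_contra hx
          have : den f x = 0 := Finset.sum_eq_zero fun i _ => by rw [hf0 i x hx]; simp
          linarith
        rw [indicator_of_mem hx]
        have h1 := pt hA h hp0 hpω (hB x)
        refine h1.trans (le_of_eq ?_)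
        rw [hE]
        ring
  -- the logarithm
  have l1 : (d:ℝ) / 2 - 3 - 2 * Real.log d - Real.log A ≤ (d:ℝ) / 2 * Real.log (4 * π * s) := by
    have e1 : 4 * π * s = 2 * π * d / EA := by rw [hs]; field_simp; ring
    rw [e1, Real.log_div (by positivity) hEA0.ne', hEA, Real.log_mul (by positivity) hE0.ne',
      Real.log_mul (by positivity) hKp.ne', hE, Real.log_rpow hA]
    have a1 : Real.log Kc ≤ Real.log (2 * π * d) - 1 + (4 + 4 * Real.log d) / d := by
      have h := Real.log_le_log hKp (Pool.Agent.L7h76.LS.Kcl_le hd4')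
      rw [Real.log_mul (by positivity) (by positivity), Real.log_exp,
        Real.log_div (by positivity) (by positivity), Real.log_exp] at h
      exact h
    have a2 : Real.log (1 + p) ≤ p := by
      have := Real.log_le_sub_one_of_pos (by positivity : (0:ℝ) < 1 + p)
      linarith
    have a3 : (d:ℝ) / 2 * (Real.log (2 * π * d) - (p + (Real.log (2 * π * d) - 1 +
        (4 + 4 * Real.log d) / d) + p * Real.log A)) =
        (d:ℝ) / 2 - 3 - 2 * Real.log d - Real.log A := by
      rw [hp]
      field_simp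
      ring
    rw [← a3]
    refine mul_le_mul_of_nonneg_left ?_ (by positivity)
    linarith
  have hlog : 1 ≤ Real.log d := by
    rw [Real.le_log_iff_exp_le hd0]
    have := Real.exp_one_lt_d9
    linarith
  have hsE : 2 * EA / d * s = 1 := by rw [hs]; field_simp
  have g2 : s / 16 * fis0 f + J₀ + Λ * ((d:ℝ) / 2 - 3 - 2 * Real.log d - Real.log A) ≤
      s * kin f := by
    have := mul_le_mul_of_nonneg_left l1 hΛ0
    linarith
  have g3 := mul_le_mul_of_nonneg_left g2 (by positivity : 0 ≤ 2 * EA / d)
  have e1 : 2 * EA / d * (s * kin f) = kin f := by rw [← mul_assoc, hsE, one_mul]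
  rw [e1] at g3
  have e2 : 2 * EA / d * (s / 16 * fis0 f + J₀ +
      Λ * ((d:ℝ) / 2 - 3 - 2 * Real.log d - Real.log A)) =
      1 / 16 * fis0 f + EA * (Λ + p * (J₀ - Real.log A * Λ) - p * (3 + 2 * Real.log d) * Λ) := by
    have e3 : 2 * EA / d * (s / 16 * fis0 f) = 1 / 16 * fis0 f := by
      have : 2 * EA / d * (s / 16 * fis0 f) = (2 * EA / d * s) / 16 * fis0 f := by ring
      rw [this, hsE]
    rw [mul_add, mul_add, e3, hp]
    field_simp
    ring
  rw [e2] at g3
  set J := J₀ - Real.log A * Λ with hJ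
  have g4 := mul_le_mul_of_nonneg_left hI1 hKp.le
  have g5 : Kc * E * (Λ + p * J + p ^ 2 * (J + ω ^ 2 * Λ + 2 * A * V)) ≤
      EA * (Λ + p * J - p * (3 + 2 * Real.log d) * Λ) +
        (4 * ω ^ 2 + 23) * (Real.log d / d) * (Kc * E) * (Λ + A * V) := by
    have hpd : p * d = 2 := by rw [hp]; field_simp
    have hph : p ≤ 1 / 2 := by
      rw [hp, div_le_iff₀ hd0]; linarith
    have hld : p / 2 ≤ Real.log d / d := by
      rw [hp]
      have : (2:ℝ) / d / 2 = 1 / d := by field_simp
      rw [this]
      exact div_le_div_of_nonneg_right hlog hd0.le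
    have hlp : Real.log d / d = p / 2 * Real.log d := by rw [hp]; field_simp
    have hAV : 0 ≤ A * V := by positivity
    have e3 : EA * (Λ + p * J - p * (3 + 2 * Real.log d) * Λ) +
        (4 * ω ^ 2 + 23) * (Real.log d / d) * (Kc * E) * (Λ + A * V) -
        Kc * E * (Λ + p * J + p ^ 2 * (J + ω ^ 2 * Λ + 2 * A * V)) =
        (Kc * E) * (p * Λ - (1 + p) * p * (3 + 2 * Real.log d) * Λ +
          (4 * ω ^ 2 + 23) * (Real.log d / d) * (Λ + A * V) -
          p ^ 2 * (ω ^ 2 * Λ + 2 * (A * V))) := by
      rw [hEA]; ring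
    have h0 : 0 ≤ p * Λ - (1 + p) * p * (3 + 2 * Real.log d) * Λ +
          (4 * ω ^ 2 + 23) * (Real.log d / d) * (Λ + A * V) -
          p ^ 2 * (ω ^ 2 * Λ + 2 * (A * V)) := by
      have b1 : (1 + p) * p * (3 + 2 * Real.log d) * Λ ≤ 15 * (Real.log d / d) * Λ := by
        refine mul_le_mul_of_nonneg_right ?_ hΛ0
        rw [hlp]
        have c1 : (1 + p) * p ≤ 3 / 2 * p := by nlinarith
        have c2 : (3 + 2 * Real.log d) ≤ 5 * Real.log d := by linarith
        have c3 := mul_le_mul c1 c2 (by linarith) (by positivity)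
        linarith
      have b2 : p ^ 2 * (ω ^ 2 * Λ + 2 * (A * V)) ≤
          (4 * ω ^ 2 + 8) * (Real.log d / d) * (Λ + A * V) := by
        have c1 : p ^ 2 ≤ Real.log d / d := by nlinarith
        have c2 : ω ^ 2 * Λ + 2 * (A * V) ≤ (4 * ω ^ 2 + 8) * (Λ + A * V) := by
          have : 0 ≤ ω ^ 2 * Λ := by positivity
          have : 0 ≤ ω ^ 2 * (A * V) := by positivity
          nlinarith
        have c3 := mul_le_mul c1 c2 (by positivity) (by positivity)
        linarith
      have b3 : 15 * (Real.log d / d) * Λ ≤ 15 * (Real.log d / d) * (Λ + A * V) :=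
        mul_le_mul_of_nonneg_left (by linarith) (by positivity)
      have b4 : 0 ≤ p * Λ := by positivity
      have e4 : (4 * ω ^ 2 + 23) * (Real.log d / d) * (Λ + A * V) =
        15 * (Real.log d / d) * (Λ + A * V) + (4 * ω ^ 2 + 8) * (Real.log d / d) * (Λ + A * V) := by
        ring
      linarith
    have := mul_nonneg (mul_pos hKp hE0).le h0
    linarith
  have e5 : Kc * (E * (Λ + p * J + p ^ 2 * (J + ω ^ 2 * Λ + 2 * A * V))) =
      Kc * E * (Λ + p * J + p ^ 2 * (J + ω ^ 2 * Λ + 2 * A * V)) := by ring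
  rw [e5] at g4
  linarith

end Pool.Agent.L7h22.GF
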